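import Pool.Agent.N546.ZT.Seq
import Pool.Agent.Run7.h823.WF.D

set_option autoImplicit false
set_option linter.unusedSectionVars false

/-!
Properties of integers which hold in the presence of exact prime divisors in finitely many sets of primes
with divergent sums of reciprocals, for products of powers of the members of families of vectors of residues with
small Fourier coefficients.

Combines the transfer `Pool.Agent.Run7.h823.WF.transferD` of helper823 and the sieve `Pool.Agent.N546.ZT.ex_dens_in` of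
helper546.
-/

namespace Pool.Agent.Run7.h227.RV

open Finset Filter Pool.Agent.N666.TM
open Pool.Agent.Run7.h823.WF (Flat transferD ncard_mono)

section
variable {ι : Type} [Fintype ι] [DecidableEq ι]

/-- exact prime divisors of the coordinates in finitely many sets of primes -/
theorem residues_in {β : ℝ} (hβ : 0 < β) {r : ℕ} (Q : Fin r → Set ℕ) (hQ : ∀ i, ∀ p ∈ Q i, p.Prime)
    (hdiv : ∀ i, ∀ B : ℝ, ∃ y : ℕ, B ≤ ∑ p ∈ range y, Set.indicator (Q i) (fun p : ℕ => 1 / (p : ℝ)) p)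
    (D : ℕ) (ε : ℝ) (hε : 0 < ε) : ∃ q₀ : ℕ, ∀ (τ : Type) (q : ℕ) [NeZero q], q₀ ≤ q →
    ∀ (s : Finset τ) (y : τ → ι → ZMod q) (c₀ : ι → ℤ), Flat q ((q : ℝ) ^ (-β)) s y →
      ({i : τ | i ∈ s ∧ ¬ ∀ (k : Fin r) (l : ι), ∃ p ∈ Q k, D < p ∧
        Ex l p (fun j => c₀ j + ((y i j).val : ℕ))}.ncard : ℝ) ≤ ε * s.card := by
  classical
  obtain ⟨q₀, h⟩ := transferD (ι := ι) hβ (fun _ v => ∀ (k : Fin r) (l : ι), ∃ p ∈ Q k, D < p ∧ Ex l p v)
    (fun _ _ => True) (fun _ _ _ => trivial) (fun S x κ hκ hw _ ε hε => by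
      have hw' : ∀ H : ℕ, ∃ N₀ : ℕ, ∀ N : ℕ, N₀ ≤ N → Well (S N) x H := by
        intro H
        obtain ⟨N₁, hN₁⟩ := hw
        have hev : ∀ᶠ N : ℕ in atTop, (H : ℝ) ≤ (N : ℝ) ^ κ :=
          ((tendsto_rpow_atTop hκ).comp tendsto_natCast_atTop_atTop).eventually_ge_atTop _
        obtain ⟨N₂, hN₂⟩ := eventually_atTop.mp hev
        exact ⟨max N₁ N₂, fun N hN => hN₁ N ((le_max_left _ _).trans hN) H (hN₂ N ((le_max_right _ _).trans hN))⟩
      have h1 : ∀ k : Fin r, ∃ N₀ : ℕ, ∀ N : ℕ, N₀ ≤ N →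
          ({n : ℕ | n ∈ S N ∧ ¬ ∀ l : ι, ∃ p ∈ Q k, D < p ∧ Ex l p (x n)}.ncard : ℝ) ≤
            ε / (r + 1) * (S N).card := fun k =>
        Pool.Agent.N546.ZT.ex_dens_in hw' (Q k) (hQ k) (hdiv k) D (ε / (r + 1)) (by positivity)
      choose N₀ hN₀ using h1
      refine ⟨Finset.univ.sup N₀, fun N hN => ?_⟩
      have hsub : {n : ℕ | n ∈ S N ∧ ¬ ∀ (k : Fin r) (l : ι), ∃ p ∈ Q k, D < p ∧ Ex l p (x n)} ⊆
          ⋃ k ∈ (Finset.univ : Finset (Fin r)), {n : ℕ | n ∈ S N ∧ ¬ ∀ l : ι, ∃ p ∈ Q k, D < p ∧ Ex l p (x n)} := by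
        rintro n ⟨hn, hn'⟩
        rw [not_forall] at hn'
        obtain ⟨k, hk⟩ := hn'
        simp only [Set.mem_iUnion]
        exact ⟨k, Finset.mem_univ k, hn, hk⟩
      have hfin : ∀ k : Fin r, {n : ℕ | n ∈ S N ∧ ¬ ∀ l : ι, ∃ p ∈ Q k, D < p ∧ Ex l p (x n)}.Finite :=
        fun k => (S N).finite_toSet.subset fun n hn => hn.1
      have h2 : ({n : ℕ | n ∈ S N ∧ ¬ ∀ (k : Fin r) (l : ι), ∃ p ∈ Q k, D < p ∧ Ex l p (x n)}.ncard : ℝ) ≤
          ∑ k : Fin r, ({n : ℕ | n ∈ S N ∧ ¬ ∀ l : ι, ∃ p ∈ Q k, D < p ∧ Ex l p (x n)}.ncard : ℝ) := by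
        have h3 := (Set.ncard_le_ncard hsub (Set.Finite.biUnion (Finset.finite_toSet _) fun k _ => hfin k)).trans
          (Finset.set_ncard_biUnion_le _ _)
        exact_mod_cast h3
      refine h2.trans ((Finset.sum_le_sum fun k _ =>
        hN₀ k N ((Finset.le_sup (Finset.mem_univ k)).trans hN)).trans ?_)
      rw [Finset.sum_const, Finset.card_univ, Fintype.card_fin, nsmul_eq_mul]
      have h4 : (r : ℝ) * (ε / (r + 1)) ≤ ε := by
        have h5 : (r : ℝ) * (ε / (r + 1)) = ε * (r / (r + 1)) := by field_simp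
        rw [h5]
        have h6 : (r : ℝ) / (r + 1) ≤ 1 := by rw [div_le_one (by positivity)]; linarith
        nlinarith
      calc (r : ℝ) * (ε / (r + 1) * (S N).card) = (r * (ε / (r + 1))) * (S N).card := by ring
        _ ≤ _ := by gcongr) ε hε
  exact ⟨q₀, fun τ q _ hq s y c₀ hf => h τ q hq s y c₀ hf fun _ _ => trivial⟩

/-- an exact prime divisor of a product of powers -/
theorem exact_prod {v : ι → ℤ} {p : ℕ} (hp : p.Prime) {l : ι} (hx : Ex l p v) {e : ι → ℕ} (he : e l = 1)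
    {u : ℤ} (hu : u ≠ 0) (hup : u.natAbs < p) :
    (p : ℤ) ∣ u * ∏ j, v j ^ e j ∧ ¬ (p : ℤ) ^ 2 ∣ u * ∏ j, v j ^ e j := by
  obtain ⟨h1, h2, h3⟩ := hx
  have hpp : Prime (p : ℤ) := Nat.prime_iff_prime_int.mp hp
  have hpu : ¬ (p : ℤ) ∣ u := by
    intro hd
    have h4 := Int.natCast_dvd.1 hd
    have := Nat.le_of_dvd (Int.natAbs_pos.2 hu) h4
    omega
  have hrest : ¬ (p : ℤ) ∣ u * ∏ i ∈ Finset.univ.erase l, v i ^ e i := by
    intro hd
    rcases hpp.dvd_or_dvd hd with hd | hd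
    · exact hpu hd
    · obtain ⟨i, hi, hd⟩ := (hpp.dvd_finsetProd_iff _).1 hd
      exact h3 i (Finset.mem_erase.1 hi).1 (hpp.dvd_of_dvd_pow hd)
  have hsplit : u * ∏ j, v j ^ e j = v l * (u * ∏ i ∈ Finset.univ.erase l, v i ^ e i) := by
    rw [← Finset.mul_prod_erase Finset.univ _ (Finset.mem_univ l), he, pow_one]
    ring
  refine ⟨?_, ?_⟩
  · rw [hsplit]
    exact Dvd.dvd.mul_right h1 _
  · rw [hsplit]
    intro hd
    have hco : IsCoprime ((p : ℤ) ^ 2) (u * ∏ i ∈ Finset.univ.erase l, v i ^ e i) :=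
      IsCoprime.pow_left ((Prime.coprime_iff_not_dvd hpp).2 hrest)
    exact h2 (hco.dvd_of_dvd_mul_right hd)

/-- **Families of vectors of residues and local criteria**, uniformly in the exponents. -/
theorem crit_residues {P : ℤ → Prop} (hP : Pool.Agent.N546.ZT.Crit P) {β : ℝ} (hβ : 0 < β)
    (D : ℕ) (ε : ℝ) (hε : 0 < ε) : ∃ q₀ : ℕ, ∀ (τ : Type) (q : ℕ) [NeZero q], q₀ ≤ q →
    ∀ (s : Finset τ) (y : τ → ι → ZMod q) (c₀ : ι → ℤ), Flat q ((q : ℝ) ^ (-β)) s y →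
      ({i : τ | i ∈ s ∧ ¬ ∀ (e : ι → ℕ) (u : ℤ), (∃ l, e l = 1) → u ≠ 0 → u.natAbs ≤ D →
        P (u * ∏ j, (c₀ j + ((y i j).val : ℕ)) ^ e j)}.ncard : ℝ) ≤ ε * s.card := by
  obtain ⟨r, Q, h1, h2, h3⟩ := hP
  obtain ⟨q₀, h⟩ := residues_in (ι := ι) hβ Q h1 h2 D ε hε
  refine ⟨q₀, fun τ q _ hq s y c₀ hf => le_trans (ncard_mono ?_) (h τ q hq s y c₀ hf)⟩
  intro i _ ht hgood
  apply ht
  rintro e u ⟨l, hl⟩ hu hD
  apply h3
  intro k
  obtain ⟨p, hp, hDp, hx⟩ := hgood k l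
  have h4 := exact_prod (h1 k p hp) hx hl hu (by omega)
  exact ⟨p, hp, h4⟩

end

end Pool.Agent.Run7.h227.RV
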